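import Mathlib

/-!
Tiles of `ℤ^d` inside the cube `[n]^d`.
-/

namespace Q139.Cube

/-- the cube `[n]^d` -/
noncomputable def box (n d : ℕ) : Finset (Fin d → ℤ) := Fintype.piFinset fun _ => Finset.Icc 1 (n : ℤ)

/-- `S` tiles `ℤ^d` by translations -/
def Tiles {d : ℕ} (S : Finset (Fin d → ℤ)) : Prop :=
  ∃ T : Set (Fin d → ℤ), ∀ x, ∃! p : (Fin d → ℤ) × (Fin d → ℤ), p.1 ∈ S ∧ p.2 ∈ T ∧ p.1 + p.2 = x

open Classical in
/-- the number of subsets of `[n]^d` that tile `ℤ^d` by translations -/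
noncomputable def t (n d : ℕ) : ℕ := ((box n d).powerset.filter fun S => Tiles S).card

/-- `S ⊕ T = ℤ^d` -/
def Comp {d : ℕ} (S : Finset (Fin d → ℤ)) (T : Set (Fin d → ℤ)) : Prop :=
  ∀ x, ∃! p : (Fin d → ℤ) × (Fin d → ℤ), p.1 ∈ S ∧ p.2 ∈ T ∧ p.1 + p.2 = x

theorem mem_box {n d : ℕ} {x : Fin d → ℤ} : x ∈ box n d ↔ ∀ i, 1 ≤ x i ∧ x i ≤ n := by
  simp [box, Fintype.mem_piFinset]

theorem card_box (n d : ℕ) : (box n d).card = n ^ d := by
  simp [box, Fintype.card_piFinset]

/-- the constant `3^{1/3}` -/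
noncomputable def c3 : ℝ := (3 : ℝ) ^ (1 / 3 : ℝ)

theorem c3_pow : c3 ^ 3 = 3 := by
  rw [c3, ← Real.rpow_natCast, ← Real.rpow_mul (by norm_num)]
  norm_num

theorem c3_pos : 0 < c3 := by unfold c3; positivity

theorem one_le_c3 : 1 ≤ c3 := by
  unfold c3
  exact Real.one_le_rpow (by norm_num) (by norm_num)

theorem cube_le (a : ℕ) : a ^ 3 ≤ 3 ^ a := by
  rcases Nat.lt_or_ge a 3 with h | h
  · interval_cases a <;> norm_num
  · induction a, h using Nat.le_induction with
    | base => norm_num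
    | succ n hn ih =>
      have : (n + 1) ^ 3 ≤ 3 * n ^ 3 := by
        have h1 : n ^ 3 = n * n * n := by ring
        have h2 : (n + 1) ^ 3 = n * n * n + 3 * (n * n) + 3 * n + 1 := by ring
        rw [h1, h2]
        have h3 : 3 * (n * n) ≤ n * n * n := by nlinarith
        have h4 : 3 * n + 1 ≤ n * n * n := by nlinarith
        omega
      calc (n + 1) ^ 3 ≤ 3 * n ^ 3 := this
        _ ≤ 3 * 3 ^ n := by omega
        _ = 3 ^ (n + 1) := by ring

theorem le_c3_pow (a : ℕ) : (a : ℝ) ≤ c3 ^ a := by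
  have h1 : ((a : ℝ)) ^ 3 ≤ (c3 ^ a) ^ 3 := by
    rw [← pow_mul, mul_comm a 3, pow_mul, c3_pow]
    exact_mod_cast cube_le a
  exact le_of_pow_le_pow_left₀ (by norm_num) (by have := c3_pos; positivity) h1

theorem prod_le {ι : Type*} (I : Finset ι) (a : ι → ℕ) (v : ℕ) (h : ∑ i ∈ I, a i ≤ v) :
    ((∏ i ∈ I, a i : ℕ) : ℝ) ≤ c3 ^ v := by
  calc ((∏ i ∈ I, a i : ℕ) : ℝ) = ∏ i ∈ I, (a i : ℝ) := by push_cast; rfl
    _ ≤ ∏ i ∈ I, c3 ^ a i :=
        Finset.prod_le_prod (fun _ _ => Nat.cast_nonneg _) fun i _ => le_c3_pow (a i)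
    _ = c3 ^ ∑ i ∈ I, a i := by rw [Finset.prod_pow_eq_pow_sum]
    _ ≤ c3 ^ v := pow_le_pow_right₀ one_le_c3 h

/-- window of the complement -/
noncomputable def win (n d : ℕ) : Finset (Fin d → ℤ) := Fintype.piFinset fun _ => Finset.Icc (-2 * (n : ℤ)) (-1)

theorem mem_win {n d : ℕ} {x : Fin d → ℤ} : x ∈ win n d ↔ ∀ i, -2 * (n : ℤ) ≤ x i ∧ x i ≤ -1 := by
  simp [win, Fintype.mem_piFinset]

theorem card_win (n d : ℕ) : (win n d).card = (2 * n) ^ d := by
  simp only [win, Fintype.card_piFinset, Int.card_Icc, Finset.prod_const, Finset.card_univ,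
    Fintype.card_fin]
  congr 1
  omega

theorem neg_sub_mem_win {n d : ℕ} {x y : Fin d → ℤ} (hx : x ∈ box n d) (hy : y ∈ box n d) :
    -x - y ∈ win n d := by
  rw [mem_win]
  intro i
  have h1 := mem_box.1 hx i
  have h2 := mem_box.1 hy i
  simp only [Pi.sub_apply, Pi.neg_apply]
  omega

open Classical in
/-- tiles whose complement has a prescribed window -/
noncomputable def fib (n d : ℕ) (T₀ : Finset (Fin d → ℤ)) : Finset (Finset (Fin d → ℤ)) :=
  (box n d).powerset.filter fun S => ∃ T, Comp S T ∧ (win n d).filter (· ∈ T) = T₀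

theorem card_fib (n d : ℕ) (T₀ : Finset (Fin d → ℤ)) :
    ((fib n d T₀).card : ℝ) ≤ c3 ^ (n ^ d) := by
  classical
  rcases (fib n d T₀).eq_empty_or_nonempty with he | ⟨S₀, hS₀⟩
  · rw [he]; simp only [Finset.card_empty, Nat.cast_zero]
    have := c3_pos; positivity
  simp only [fib, Finset.mem_filter, Finset.mem_powerset] at hS₀
  obtain ⟨hS₀b, T, hT, hTw⟩ := hS₀
  let A : (Fin d → ℤ) → Finset (Fin d → ℤ) := fun s => (box n d).filter fun y => -s - y ∈ T₀
  have hT₀ : ∀ z, z ∈ T₀ ↔ z ∈ win n d ∧ z ∈ T := by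
    intro z; rw [← hTw, Finset.mem_filter]
  have hsum : ∑ s ∈ S₀, (A s).card ≤ n ^ d := by
    rw [← Finset.card_biUnion, ← card_box n d]
    · refine Finset.card_le_card fun y hy => ?_
      simp only [Finset.mem_biUnion, A, Finset.mem_filter] at hy
      obtain ⟨_, _, h, _⟩ := hy
      exact h
    · intro s hs s' hs' hne
      rw [Function.onFun, Finset.disjoint_left]
      intro y hy hy'
      simp only [A, Finset.mem_filter, hT₀] at hy hy'
      have h1 := (hT (-y)).unique (y₁ := (s, -s - y)) (y₂ := (s', -s' - y))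
        ⟨hs, hy.2.2, by simp only; abel⟩ ⟨hs', hy'.2.2, by simp only; abel⟩
      exact hne (congrArg Prod.fst h1)
  refine le_trans ?_ (prod_le S₀ (fun s => (A s).card) _ hsum)
  rw [← Finset.card_pi]
  have hsub : fib n d T₀ ⊆ (S₀.pi A).image fun g => S₀.attach.image fun a => g a.1 a.2 := by
    intro S hS
    simp only [fib, Finset.mem_filter, Finset.mem_powerset] at hS
    obtain ⟨hSb, T', hT', hTw'⟩ := hS
    have hT₀' : ∀ z, z ∈ T₀ ↔ z ∈ win n d ∧ z ∈ T' := by
      intro z; rw [← hTw', Finset.mem_filter]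
    have hex : ∀ s ∈ S₀, ∃ y ∈ S, -s - y ∈ T₀ := by
      intro s hs
      obtain ⟨⟨y, z⟩, ⟨hy, hz, hyz⟩, -⟩ := hT' (-s)
      refine ⟨y, hy, ?_⟩
      have : -s - y = z := by rw [← hyz]; simp
      rw [hT₀']
      exact ⟨neg_sub_mem_win (hS₀b hs) (hSb hy), by rw [this]; exact hz⟩
    choose g hg1 hg2 using hex
    refine Finset.mem_image.2 ⟨g, ?_, ?_⟩
    · rw [Finset.mem_pi]
      intro s hs
      simp only [A, Finset.mem_filter]
      exact ⟨hSb (hg1 s hs), hg2 s hs⟩
    · ext y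
      simp only [Finset.mem_image, Finset.mem_attach, true_and, Subtype.exists]
      constructor
      · rintro ⟨s, hs, rfl⟩
        exact hg1 s hs
      · intro hy
        obtain ⟨⟨s, z⟩, ⟨hs, hz, hsz⟩, -⟩ := hT (-y)
        refine ⟨s, hs, ?_⟩
        have hz' : z = -s - y := by
          have h1 : s + z = -y := hsz
          have h2 : z = -y - s := by rw [← h1]; simp
          rw [h2]; abel
        have hz₀ : -s - y ∈ T₀ := by
          rw [hT₀]
          exact ⟨neg_sub_mem_win (hS₀b hs) (hSb hy), by rw [← hz']; exact hz⟩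
        have h1 := (hT' (-s)).unique (y₁ := (g s hs, -s - g s hs)) (y₂ := (y, -s - y))
          ⟨hg1 s hs, ((hT₀' _).1 (hg2 s hs)).2, by simp⟩ ⟨hy, ((hT₀' _).1 hz₀).2, by simp⟩
        exact congrArg Prod.fst h1
  exact_mod_cast (Finset.card_le_card hsub).trans Finset.card_image_le

/-- the window of the complement is small when the tile is large -/
theorem card_window {n d : ℕ} {S : Finset (Fin d → ℤ)} (hS : S ⊆ box n d)
    {T : Set (Fin d → ℤ)} (hT : Comp S T) {T₀ : Finset (Fin d → ℤ)}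
    (hT₀ : ∀ z ∈ T₀, z ∈ win n d ∧ z ∈ T) : T₀.card * S.card ≤ 3 ^ d * n ^ d := by
  classical
  rw [← Finset.card_product]
  have hinj : Set.InjOn (fun p : (Fin d → ℤ) × (Fin d → ℤ) => p.2 + p.1)
      (T₀ ×ˢ S : Finset ((Fin d → ℤ) × (Fin d → ℤ))) := by
    intro p hp q hq hpq
    simp only [Finset.coe_product, Set.mem_prod, Finset.mem_coe] at hp hq
    have h1 := (hT (p.2 + p.1)).unique (y₁ := (p.2, p.1)) (y₂ := (q.2, q.1))
      ⟨hp.2, (hT₀ _ hp.1).2, rfl⟩ ⟨hq.2, (hT₀ _ hq.1).2, hpq.symm⟩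
    exact Prod.ext (congrArg Prod.snd h1) (congrArg Prod.fst h1)
  rw [← Finset.card_image_of_injOn hinj]
  have hsub : (T₀ ×ˢ S).image (fun p : (Fin d → ℤ) × (Fin d → ℤ) => p.2 + p.1) ⊆
      Fintype.piFinset fun _ : Fin d => Finset.Icc (1 - 2 * (n : ℤ)) n := by
    intro y hy
    simp only [Finset.mem_image, Finset.mem_product, Prod.exists] at hy
    obtain ⟨z, s, ⟨hz, hs⟩, rfl⟩ := hy
    rw [Fintype.mem_piFinset]
    intro i
    have h1 := mem_box.1 (hS hs) i
    have h2 := mem_win.1 (hT₀ _ hz).1 i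
    simp only [Finset.mem_Icc, Pi.add_apply]
    omega
  refine (Finset.card_le_card hsub).trans ?_
  rw [Fintype.card_piFinset]
  simp only [Int.card_Icc, Finset.prod_const, Finset.card_univ, Fintype.card_fin]
  rw [← mul_pow]
  apply Nat.pow_le_pow_left
  omega

/-- number of small subsets of the box -/
theorem card_small (v : ℕ) {α : Type*} (B : Finset α) (hB : B.card = v) :
    ((B.powerset.filter fun S => 10 * S.card ≤ v).card : ℝ) ≤ c3 ^ v := by
  classical
  let δ : ℝ := (4 : ℝ) ^ (1 / 10 : ℝ)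
  have hδ : δ ^ 10 = 4 := by
    simp only [δ]
    rw [← Real.rpow_natCast, ← Real.rpow_mul (by norm_num)]; norm_num
  have hδ0 : 0 < δ := by simp only [δ]; positivity
  have hδ1 : 1 ≤ δ := Real.one_le_rpow (by norm_num) (by norm_num)
  have hsum : ∑ S ∈ B.powerset, (1 / 4 : ℝ) ^ S.card = (5 / 4) ^ v := by
    have := Finset.sum_pow_mul_eq_add_pow (1 / 4 : ℝ) 1 B
    simp only [one_pow, mul_one] at this
    rw [this, hB]; norm_num
  have h1 : ((B.powerset.filter fun S => 10 * S.card ≤ v).card : ℝ) * (δ⁻¹) ^ v ≤ (5 / 4) ^ v := by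
    rw [← hsum, ← nsmul_eq_mul, ← Finset.sum_const]
    refine (Finset.sum_le_sum (g := fun S : Finset α => (1 / 4 : ℝ) ^ S.card) fun S hS => ?_).trans
      (Finset.sum_le_sum_of_subset_of_nonneg (Finset.filter_subset _ _) fun _ _ _ => by positivity)
    have hS' := (Finset.mem_filter.1 hS).2
    have : (1 / 4 : ℝ) = (δ⁻¹) ^ 10 := by rw [inv_pow, hδ]; norm_num
    rw [this, ← pow_mul]
    exact pow_le_pow_of_le_one (by positivity) (inv_le_one_of_one_le₀ hδ1) hS'
  have h2 : ((B.powerset.filter fun S => 10 * S.card ≤ v).card : ℝ) ≤ (5 / 4 * δ) ^ v := by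
    rw [mul_pow, ← div_le_iff₀ (by positivity)]
    rw [inv_pow] at h1
    exact h1
  refine h2.trans (pow_le_pow_left₀ (by positivity) ?_ _)
  have h3 : (5 / 4 * δ) ^ 30 ≤ c3 ^ 30 := by
    have e1 : (5 / 4 * δ) ^ 30 = (5 / 4) ^ 30 * (δ ^ 10) ^ 3 := by ring
    have e2 : c3 ^ 30 = (c3 ^ 3) ^ 10 := by ring
    rw [e1, e2, hδ, c3_pow]
    norm_num
  exact le_of_pow_le_pow_left₀ (by norm_num) c3_pos.le h3

theorem card_le_subsets {α : Type*} (B : Finset α) (Q : ℕ) :
    (B.powerset.filter fun S => S.card ≤ Q).card ≤ (B.card + 1) ^ Q := by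
  classical
  have h1 : B.powerset.filter (fun S => S.card ≤ Q) ⊆
      (Fintype.piFinset fun _ : Fin Q => (B.image some ∪ {none} : Finset (Option α))).image
        fun g => (Finset.univ.image g).biUnion Option.toFinset := by
    intro S hS
    simp only [Finset.mem_filter, Finset.mem_powerset] at hS
    obtain ⟨hSB, hSQ⟩ := hS
    let e := S.equivFin
    refine Finset.mem_image.2
      ⟨fun i => if h : (i : ℕ) < S.card then some (e.symm ⟨i, h⟩ : α) else none, ?_, ?_⟩
    · rw [Fintype.mem_piFinset]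
      intro i
      by_cases h : (i : ℕ) < S.card
      · simp only [h, dite_true, Finset.mem_union, Finset.mem_image]
        left
        exact ⟨_, hSB (e.symm ⟨i, h⟩).2, rfl⟩
      · simp [h]
    · ext y
      simp only [Finset.mem_biUnion, Finset.mem_image, Finset.mem_univ, true_and,
        Option.mem_toFinset]
      constructor
      · rintro ⟨o, ⟨i, rfl⟩, hy⟩
        by_cases h : (i : ℕ) < S.card
        · simp only [h, dite_true, Option.mem_def, Option.some.injEq] at hy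
          rw [← hy]; exact (e.symm ⟨i, h⟩).2
        · simp [h] at hy
      · intro hy
        refine ⟨some y, ⟨⟨(e ⟨y, hy⟩ : Fin S.card), (e ⟨y, hy⟩).2.trans_le hSQ⟩, ?_⟩, rfl⟩
        have h : ((e ⟨y, hy⟩ : Fin S.card) : ℕ) < S.card := (e ⟨y, hy⟩).2
        simp [h]
  refine (Finset.card_le_card h1).trans (Finset.card_image_le.trans ?_)
  rw [Fintype.card_piFinset]
  simp only [Finset.prod_const, Finset.card_univ, Fintype.card_fin]
  apply Nat.pow_le_pow_left
  refine (Finset.card_union_le _ _).trans ?_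
  simp only [Finset.card_singleton, add_le_add_iff_right]
  exact Finset.card_image_le

theorem upper (n d : ℕ) (hn : 1 ≤ n) :
    (t n d : ℝ) ≤ (1 + ((2 * n) ^ d + 1 : ℕ) ^ (10 * 3 ^ d)) * c3 ^ (n ^ d) := by
  classical
  set Q := 10 * 3 ^ d with hQ
  let small := (box n d).powerset.filter fun S => 10 * S.card ≤ n ^ d
  let wins := (win n d).powerset.filter fun S => S.card ≤ Q
  have hsub : (box n d).powerset.filter (fun S => Tiles S) ⊆
      small ∪ wins.biUnion fun T₀ => fib n d T₀ := by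
    intro S hS
    simp only [Finset.mem_filter, Finset.mem_powerset] at hS
    obtain ⟨hSb, T, hT⟩ := hS
    rw [Finset.mem_union]
    by_cases h : 10 * S.card ≤ n ^ d
    · left
      simp only [small, Finset.mem_filter, Finset.mem_powerset]
      exact ⟨hSb, h⟩
    · right
      push Not at h
      rw [Finset.mem_biUnion]
      refine ⟨(win n d).filter (· ∈ T), ?_, ?_⟩
      · simp only [wins, Finset.mem_filter, Finset.mem_powerset]
        refine ⟨Finset.filter_subset _ _, ?_⟩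
        have h1 := card_window hSb (T := T) hT (T₀ := (win n d).filter (· ∈ T))
          (fun z hz => Finset.mem_filter.1 hz)
        have h2 : 0 < n ^ d := by positivity
        by_contra h3
        push Not at h3
        have h4 : (Q + 1) * S.card ≤ 3 ^ d * n ^ d := (Nat.mul_le_mul_right _ h3).trans h1
        have h5 : 3 ^ d * n ^ d ≤ 3 ^ d * (10 * S.card) := Nat.mul_le_mul_left _ h.le
        have h6 : 3 ^ d * (10 * S.card) = Q * S.card := by rw [hQ]; ring
        have h7 : 0 < S.card := by omega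
        have h8 : (Q + 1) * S.card = Q * S.card + S.card := by ring
        omega
      · simp only [fib, Finset.mem_filter, Finset.mem_powerset]
        exact ⟨hSb, T, hT, rfl⟩
  have h1 : (t n d : ℝ) ≤ (small.card : ℝ) + ∑ T₀ ∈ wins, ((fib n d T₀).card : ℝ) := by
    have h2 : t n d ≤ small.card + ∑ T₀ ∈ wins, (fib n d T₀).card := by
      refine (Finset.card_le_card hsub).trans ((Finset.card_union_le _ _).trans ?_)
      exact Nat.add_le_add_left Finset.card_biUnion_le _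
    exact_mod_cast h2
  have h2 : (small.card : ℝ) ≤ c3 ^ (n ^ d) := card_small _ _ (card_box n d)
  have h3 : ∑ T₀ ∈ wins, ((fib n d T₀).card : ℝ) ≤ (wins.card : ℝ) * c3 ^ (n ^ d) := by
    rw [← nsmul_eq_mul, ← Finset.sum_const]
    exact Finset.sum_le_sum fun T₀ _ => card_fib n d T₀
  have h4 : (wins.card : ℝ) ≤ ((2 * n) ^ d + 1 : ℕ) ^ Q := by
    have := card_le_subsets (win n d) Q
    rw [card_win] at this
    exact_mod_cast this
  have h5 : 0 < c3 ^ (n ^ d) := by have := c3_pos; positivity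
  calc (t n d : ℝ) ≤ c3 ^ (n ^ d) + (wins.card : ℝ) * c3 ^ (n ^ d) := by linarith
    _ = (1 + (wins.card : ℝ)) * c3 ^ (n ^ d) := by ring
    _ ≤ _ := mul_le_mul_of_nonneg_right (by linarith) h5.le

open Asymptotics Filter in
theorem q1 (d : ℕ) : ∃ C : ℕ, (fun n : ℕ => (t n d : ℝ)) =O[atTop]
    fun n : ℕ => (n : ℝ) ^ C * ((3 : ℝ) ^ (1 / 3 : ℝ)) ^ (n ^ d) := by
  set Q := 10 * 3 ^ d with hQ
  refine ⟨d * Q, ?_⟩
  refine IsBigO.of_bound (1 + (2 ^ d + 1) ^ Q) ?_
  filter_upwards [eventually_ge_atTop 1] with n hn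
  have hn' : (1 : ℝ) ≤ n := by exact_mod_cast hn
  have h5 : 0 < c3 ^ (n ^ d) := by have := c3_pos; positivity
  have h1 := upper n d hn
  rw [Real.norm_of_nonneg (Nat.cast_nonneg _), Real.norm_of_nonneg (by positivity)]
  refine h1.trans ?_
  change _ ≤ (1 + (2 ^ d + 1) ^ Q) * ((n : ℝ) ^ (d * Q) * c3 ^ (n ^ d))
  rw [← mul_assoc]
  refine mul_le_mul_of_nonneg_right ?_ h5.le
  have h2 : (((2 * n) ^ d + 1 : ℕ) : ℝ) ≤ (2 ^ d + 1) * (n : ℝ) ^ d := by
    push_cast
    rw [mul_pow, add_mul, one_mul]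
    have : (1 : ℝ) ≤ (n : ℝ) ^ d := one_le_pow₀ hn'
    linarith
  have h3 : (((2 * n) ^ d + 1 : ℕ) : ℝ) ^ Q ≤ (2 ^ d + 1) ^ Q * (n : ℝ) ^ (d * Q) := by
    rw [pow_mul (n : ℝ) d Q, ← mul_pow]
    exact pow_le_pow_left₀ (by positivity) h2 _
  have h4 : (1 : ℝ) ≤ (n : ℝ) ^ (d * Q) := one_le_pow₀ hn'
  rw [← hQ]
  nlinarith

end Q139.Cube
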