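import Pool.Agent.Q139.Cube.Lower

/-!
The lower bound `t(3m, 3) ≥ (n^2 (n-1) / 2) 3^{n^3/3}`.
-/

namespace Q139.Cube

/-- transversals in one layer that avoid a pair of values -/
theorem card_avoid {m : ℕ} (p : ℤ × ℤ × ℤ) (h : Fin m)
    {b₁ b₂ : Fin (3 * m) × Fin (3 * m)} (hb : b₁ ≠ b₂) {v₁ v₂ : Fin 3 → ℤ}
    (h1 : v₁ ∈ A (3 * m) m p (bb b₁) ((h : ℕ) : ℤ)) (h2 : v₂ ∈ A (3 * m) m p (bb b₂) ((h : ℕ) : ℤ)) :
    9 * ((Fintype.piFinset fun b => A (3 * m) m p (bb b) ((h : ℕ) : ℤ)).filter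
      fun g => ¬ (g b₁ = v₁ ∧ g b₂ = v₂)).card ≤ 8 * 3 ^ (3 * m * (3 * m)) := by
  classical
  set D := Fintype.piFinset fun b => A (3 * m) m p (bb b) ((h : ℕ) : ℤ) with hD
  have hDc : D.card = 3 ^ (3 * m * (3 * m)) := by
    rw [hD, Fintype.card_piFinset]
    simp only [card_A', Finset.prod_const, Finset.card_univ, Fintype.card_prod, Fintype.card_fin]
  have hadd := Finset.card_filter_add_card_filter_not (s := D) (fun g => g b₁ = v₁ ∧ g b₂ = v₂)
  have hcard : 9 * (D.filter fun g => g b₁ = v₁ ∧ g b₂ = v₂).card = 3 ^ (3 * m * (3 * m)) := by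
    have heq : (D.filter fun g => g b₁ = v₁ ∧ g b₂ = v₂) = Fintype.piFinset fun b =>
        if b = b₁ then {v₁} else if b = b₂ then {v₂} else A (3 * m) m p (bb b) ((h : ℕ) : ℤ) := by
      ext g
      simp only [hD, Finset.mem_filter, Fintype.mem_piFinset]
      constructor
      · rintro ⟨h3, h4, h5⟩ b
        by_cases hb1 : b = b₁
        · subst hb1; simp [h4]
        · by_cases hb2 : b = b₂
          · subst hb2; simp [h5, hb1]
          · simp only [hb1, hb2, if_false]; exact h3 b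
      · intro h3
        have h4 : g b₁ = v₁ := by have := h3 b₁; simpa using this
        have h5 : g b₂ = v₂ := by have := h3 b₂; simpa [hb.symm] using this
        refine ⟨fun b => ?_, h4, h5⟩
        by_cases hb1 : b = b₁
        · subst hb1; rw [h4]; exact h1
        · by_cases hb2 : b = b₂
          · subst hb2; rw [h5]; exact h2
          · have := h3 b
            simp only [hb1, hb2, if_false] at this; exact this
    rw [heq, Fintype.card_piFinset]
    have hprod : ∀ b : Fin (3 * m) × Fin (3 * m),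
        (if b = b₁ then {v₁} else if b = b₂ then {v₂} else
          A (3 * m) m p (bb b) ((h : ℕ) : ℤ) : Finset (Fin 3 → ℤ)).card
        = if b = b₁ then 1 else if b = b₂ then 1 else 3 := by
      intro b
      split_ifs
      · simp
      · simp
      · exact card_A' p b h
    simp only [hprod]
    have hall : ∏ b : Fin (3 * m) × Fin (3 * m), (3 : ℕ) = 3 ^ (3 * m * (3 * m)) := by
      simp only [Finset.prod_const, Finset.card_univ, Fintype.card_prod, Fintype.card_fin]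
    rw [← hall]
    rw [← Finset.mul_prod_erase Finset.univ (fun _ => (3 : ℕ)) (Finset.mem_univ b₁),
      ← Finset.mul_prod_erase _ (fun _ => (3 : ℕ)) (Finset.mem_erase.2 ⟨hb.symm, Finset.mem_univ b₂⟩),
      ← Finset.mul_prod_erase Finset.univ (fun b => if b = b₁ then 1 else if b = b₂ then 1 else 3)
        (Finset.mem_univ b₁),
      ← Finset.mul_prod_erase _ (fun b => if b = b₁ then 1 else if b = b₂ then 1 else 3)
        (Finset.mem_erase.2 ⟨hb.symm, Finset.mem_univ b₂⟩)]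
    have hrest : ∏ b ∈ (Finset.univ.erase b₁).erase b₂,
        (if b = b₁ then 1 else if b = b₂ then 1 else 3) =
        ∏ b ∈ (Finset.univ.erase b₁).erase b₂, (3 : ℕ) := by
      refine Finset.prod_congr rfl fun b hbb => ?_
      simp only [Finset.mem_erase, Finset.mem_univ, and_true] at hbb
      simp [hbb.1, hbb.2]
    rw [hrest]
    simp only [if_true, hb.symm, if_false]
    ring
  rw [hDc] at hadd
  omega

/-- number of common transversals for two parameters -/
theorem card_common {m : ℕ} (hm : 0 < m) {p q : ℤ × ℤ × ℤ} (hp : p ∈ I (3 * m))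
    (hq : q ∈ I (3 * m)) (hne : p ≠ q) :
    (((G m p).image SS ∩ (G m q).image SS).card : ℝ) ≤
      (8 / 9) ^ m * (3 ^ (3 * m * (3 * m))) ^ m := by
  classical
  have hm' : (0 : ℤ) < m := by exact_mod_cast hm
  have hn' : (0 : ℤ) < ((3 * m : ℕ) : ℤ) := by push_cast; linarith
  obtain ⟨v, hvq, hvp, hv0, hv1, hv2⟩ := exists_vec hm hp hq hne
  -- the pair in the layer `h`
  have hpair : ∀ h : Fin m, ∃ (b₁ b₂ : Fin (3 * m) × Fin (3 * m)) (v₁ v₂ : Fin 3 → ℤ),
      b₁ ≠ b₂ ∧ v₁ ∈ A (3 * m) m p (bb b₁) ((h : ℕ) : ℤ) ∧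
      v₂ ∈ A (3 * m) m p (bb b₂) ((h : ℕ) : ℤ) ∧
      lab ((3 * m : ℕ) : ℤ) m q v₁ = lab ((3 * m : ℕ) : ℤ) m q v₂ ∧ v₁ ≠ v₂ := by
    intro h
    have hh := h.2
    let v₁ : Fin 3 → ℤ := ![1 + max 0 (-v 0), 1 + max 0 (-v 1), (h : ℕ) + 1]
    let v₂ : Fin 3 → ℤ := v₁ + v
    rw [abs_lt] at hv0 hv1
    have hv₁ : v₁ ∈ box (3 * m) 3 := by
      rw [mem_box]
      intro i
      fin_cases i
      · simp only [v₁, Fin.zero_eta, Matrix.cons_val_zero]; omega
      · simp only [v₁, Fin.mk_one, Matrix.cons_val_one, Matrix.cons_val_zero]; omega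
      · simp only [v₁, Fin.reduceFinMk, Matrix.cons_val]; push_cast; omega
    have hv₂ : v₂ ∈ box (3 * m) 3 := by
      rw [mem_box]
      intro i
      fin_cases i
      · simp only [v₂, v₁, Fin.zero_eta, Matrix.cons_val_zero, Pi.add_apply]; omega
      · simp only [v₂, v₁, Fin.mk_one, Matrix.cons_val_one, Pi.add_apply, Matrix.cons_val_zero]
        omega
      · simp only [v₂, v₁, Fin.reduceFinMk, Matrix.cons_val, Pi.add_apply, hv2]; push_cast; omega
    obtain ⟨h₁, b₁, hb₁⟩ := exists_label hm p v₁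
    obtain ⟨h₂, b₂, hb₂⟩ := exists_label hm p v₂
    have l1 : ((h₁ : ℕ) : ℤ) = ((h : ℕ) : ℤ) := by
      have e1 := congrArg Prod.snd hb₁
      simp only [lab, v₁, Matrix.cons_val] at e1
      rw [← e1, add_sub_cancel_right, Int.emod_eq_of_lt (by positivity) (by omega)]
    have l2 : ((h₂ : ℕ) : ℤ) = ((h : ℕ) : ℤ) := by
      have e1 := congrArg Prod.snd hb₂
      simp only [lab, v₂, v₁, Matrix.cons_val, Pi.add_apply, hv2] at e1
      rw [← e1]
      have : ((h : ℕ) : ℤ) + 1 + m - 1 = ((h : ℕ) : ℤ) + 1 * m := by ring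
      rw [this, Int.add_mul_emod_self_right, Int.emod_eq_of_lt (by positivity) (by omega)]
    rw [l1] at hb₁
    rw [l2] at hb₂
    refine ⟨b₁, b₂, v₁, v₂, ?_, ?_, ?_, ?_, ?_⟩
    · rintro rfl
      apply hvp
      have h3 := (lab_eq_iff hn' hm' p v₂ v₁).1 (hb₂.trans hb₁.symm)
      simpa [v₂] using h3
    · rw [A, Finset.mem_filter]; exact ⟨hv₁, hb₁⟩
    · rw [A, Finset.mem_filter]; exact ⟨hv₂, hb₂⟩
    · symm
      rw [lab_eq_iff hn' hm']
      simpa [v₂] using hvq
    · intro he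
      have := congrFun he 2
      simp only [v₂, Pi.add_apply, hv2] at this
      omega
  choose b₁ b₂ v₁ v₂ hb hv₁ hv₂ hlab hvne using hpair
  let D : Fin m → Finset (Fin (3 * m) × Fin (3 * m) → Fin 3 → ℤ) := fun h =>
    (Fintype.piFinset fun b => A (3 * m) m p (bb b) ((h : ℕ) : ℤ)).filter
      fun g => ¬ (g (b₁ h) = v₁ h ∧ g (b₂ h) = v₂ h)
  have hsub : (G m p).image SS ∩ (G m q).image SS ⊆ (Fintype.piFinset D).image SS := by
    intro S hS
    rw [Finset.mem_inter, Finset.mem_image, Finset.mem_image] at hS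
    obtain ⟨⟨g, hg, rfl⟩, g', hg', hgg⟩ := hS
    refine Finset.mem_image.2 ⟨g, ?_, rfl⟩
    rw [Fintype.mem_piFinset]
    intro h
    rw [G, Fintype.mem_piFinset] at hg
    refine Finset.mem_filter.2 ⟨hg h, ?_⟩
    rintro ⟨e1, e2⟩
    refine hvne h (eq_of_lab hg' ?_ ?_ (hlab h))
    · rw [hgg]; exact mem_SS.2 ⟨h, b₁ h, e1⟩
    · rw [hgg]; exact mem_SS.2 ⟨h, b₂ h, e2⟩
  have hle : ((G m p).image SS ∩ (G m q).image SS).card ≤ ∏ h, (D h).card := by
    refine (Finset.card_le_card hsub).trans (Finset.card_image_le.trans ?_)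
    rw [Fintype.card_piFinset]
  have hD : ∀ h, ((D h).card : ℝ) ≤ 8 / 9 * 3 ^ (3 * m * (3 * m)) := by
    intro h
    have := card_avoid p h (hb h) (hv₁ h) (hv₂ h)
    have h2 : (9 : ℝ) * ((D h).card : ℝ) ≤ 8 * 3 ^ (3 * m * (3 * m)) := by exact_mod_cast this
    linarith
  calc (((G m p).image SS ∩ (G m q).image SS).card : ℝ) ≤ ((∏ h, (D h).card : ℕ) : ℝ) := by
        exact_mod_cast hle
    _ = ∏ h, ((D h).card : ℝ) := by push_cast; rfl
    _ ≤ ∏ _h : Fin m, (8 / 9 * 3 ^ (3 * m * (3 * m)) : ℝ) :=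
        Finset.prod_le_prod (fun _ _ => Nat.cast_nonneg _) fun h _ => hD h
    _ = _ := by rw [Finset.prod_const, Finset.card_univ, Fintype.card_fin, mul_pow]

/-- lower bound for the union of large sets with small intersections -/
theorem card_biUnion_ge {ι β : Type*} [DecidableEq ι] [DecidableEq β] (J : Finset ι)
    (F : ι → Finset β) (X Y : ℝ) (hY : 0 ≤ Y) (hX : ∀ i ∈ J, X ≤ (F i).card)
    (hXY : ∀ i ∈ J, ∀ j ∈ J, i ≠ j → ((F i ∩ F j).card : ℝ) ≤ Y) :
    (J.card : ℝ) * (X - J.card * Y) ≤ (J.biUnion F).card := by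
  let F' : ι → Finset β := fun i => F i \ (J.erase i).biUnion F
  have h1 : ∀ i ∈ J, X - J.card * Y ≤ (F' i).card := by
    intro i hi
    have h2 : (F i).card ≤ (F' i).card + ((J.erase i).biUnion fun j => F i ∩ F j).card := by
      refine (Finset.card_le_card ?_).trans (Finset.card_union_le _ _)
      intro x hx
      rw [Finset.mem_union]
      by_cases hx' : x ∈ (J.erase i).biUnion F
      · right
        rw [Finset.mem_biUnion] at hx' ⊢
        obtain ⟨j, hj, hxj⟩ := hx'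
        exact ⟨j, hj, Finset.mem_inter.2 ⟨hx, hxj⟩⟩
      · left; exact Finset.mem_sdiff.2 ⟨hx, hx'⟩
    have h3 : (((J.erase i).biUnion fun j => F i ∩ F j).card : ℝ) ≤ J.card * Y := by
      calc (((J.erase i).biUnion fun j => F i ∩ F j).card : ℝ)
          ≤ ((∑ j ∈ J.erase i, (F i ∩ F j).card : ℕ) : ℝ) := by
            exact_mod_cast Finset.card_biUnion_le
        _ = ∑ j ∈ J.erase i, ((F i ∩ F j).card : ℝ) := by push_cast; rfl
        _ ≤ ∑ _j ∈ J.erase i, Y := Finset.sum_le_sum fun j hj =>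
            hXY i hi j (Finset.mem_of_mem_erase hj) (Finset.ne_of_mem_erase hj).symm
        _ = (J.erase i).card * Y := by rw [Finset.sum_const, nsmul_eq_mul]
        _ ≤ J.card * Y := by
            refine mul_le_mul_of_nonneg_right ?_ hY
            exact_mod_cast Finset.card_le_card (Finset.erase_subset _ _)
    have h4 := hX i hi
    have h5 : ((F i).card : ℝ) ≤ (F' i).card + (((J.erase i).biUnion fun j => F i ∩ F j).card : ℝ) := by
      exact_mod_cast h2
    linarith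
  have h6 : J.biUnion F' ⊆ J.biUnion F :=
    Finset.biUnion_mono fun i _ => Finset.sdiff_subset
  have h7 : (J.biUnion F').card = ∑ i ∈ J, (F' i).card := by
    apply Finset.card_biUnion
    intro i hi j hj hij
    rw [Function.onFun, Finset.disjoint_left]
    intro x hx hx'
    simp only [F', Finset.mem_sdiff, Finset.mem_biUnion, Finset.mem_erase] at hx hx'
    exact hx'.2 ⟨i, ⟨hij, hi⟩, hx.1⟩
  calc (J.card : ℝ) * (X - J.card * Y) = ∑ _i ∈ J, (X - J.card * Y) := by
        rw [Finset.sum_const, nsmul_eq_mul]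
    _ ≤ ∑ i ∈ J, ((F' i).card : ℝ) := Finset.sum_le_sum h1
    _ = ((J.biUnion F').card : ℝ) := by rw [h7]; push_cast; rfl
    _ ≤ _ := by exact_mod_cast Finset.card_le_card h6

theorem lower {m : ℕ} (hm : 0 < m) :
    ((I (3 * m)).card : ℝ) * ((3 ^ (3 * m * (3 * m))) ^ m - (I (3 * m)).card *
      ((8 / 9) ^ m * (3 ^ (3 * m * (3 * m))) ^ m)) ≤ t (3 * m) 3 := by
  classical
  refine (card_biUnion_ge (I (3 * m)) (fun p => (G m p).image SS) _ _ (by positivity) ?_ ?_).trans ?_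
  · intro p _
    rw [Finset.card_image_of_injOn (SS_injOn m p), card_G]
    push_cast; rfl
  · intro p hp q hq hne
    exact card_common hm hp hq hne
  · rw [t]
    norm_cast
    refine Finset.card_le_card fun S hS => ?_
    simp only [Finset.mem_biUnion, Finset.mem_image] at hS
    obtain ⟨p, _, g, hg, rfl⟩ := hS
    have := tiles_SS hm hg
    exact Finset.mem_filter.2 ⟨Finset.mem_powerset.2 this.1, this.2⟩

open Asymptotics Filter in
theorem q2 : ¬ (fun n : ℕ => (t n 3 : ℝ)) =O[atTop]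
    fun n : ℕ => (n : ℝ) ^ (3 - 1) * ((3 : ℝ) ^ (1 / 3 : ℝ)) ^ (n ^ 3) := by
  intro hO
  obtain ⟨C, hC⟩ := hO.bound
  rw [eventually_atTop] at hC
  obtain ⟨N, hN⟩ := hC
  have hlim := tendsto_pow_const_mul_const_pow_of_abs_lt_one 3 (r := (8 / 9 : ℝ))
    (by rw [abs_of_pos] <;> norm_num)
  have hev : ∀ᶠ m : ℕ in atTop, (m : ℝ) ^ 3 * (8 / 9) ^ m < 1 / 54 :=
    hlim.eventually (gt_mem_nhds (by norm_num))
  rw [eventually_atTop] at hev
  obtain ⟨M, hM⟩ := hev
  obtain ⟨K, hK⟩ := exists_nat_gt C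
  let m := N + M + K + 1
  have hm : 0 < m := by simp only [m]; omega
  have h1 := hN (3 * m) (by simp only [m]; omega)
  have h2 := hM m (by simp only [m]; omega)
  have h3 := lower hm
  set X : ℝ := (3 ^ (3 * m * (3 * m))) ^ m with hX
  have hX0 : 0 < X := by positivity
  have hmR : (1 : ℝ) ≤ m := by exact_mod_cast hm
  have hcX : c3 ^ ((3 * m) ^ 3) = X := by
    have : (3 * m) ^ 3 = 3 * ((3 * m * (3 * m)) * m) := by ring
    rw [this, pow_mul, c3_pow, pow_mul]
  have hI : ((I (3 * m)).card : ℝ) = 3 * m * ((3 * m - 1) * (3 * m)) := by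
    rw [card_I]
    push_cast [Nat.cast_sub (show 1 ≤ 3 * m by omega)]
    ring
  rw [Real.norm_of_nonneg (Nat.cast_nonneg _), Real.norm_of_nonneg (by positivity)] at h1
  change (t (3 * m) 3 : ℝ) ≤ C * (((3 * m : ℕ) : ℝ) ^ 2 * c3 ^ ((3 * m) ^ 3)) at h1
  rw [hcX] at h1
  have h4 : ((I (3 * m)).card : ℝ) * (8 / 9) ^ m ≤ 1 / 2 := by
    have : ((I (3 * m)).card : ℝ) ≤ 27 * (m : ℝ) ^ 3 := by
      rw [hI]; nlinarith [mul_pos (show (0 : ℝ) < m by linarith) (show (0 : ℝ) < m by linarith)]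
    calc ((I (3 * m)).card : ℝ) * (8 / 9) ^ m ≤ 27 * (m : ℝ) ^ 3 * (8 / 9) ^ m :=
          mul_le_mul_of_nonneg_right this (by positivity)
      _ = 27 * ((m : ℝ) ^ 3 * (8 / 9) ^ m) := by ring
      _ ≤ 1 / 2 := by linarith
  have h5 : ((I (3 * m)).card : ℝ) * (X / 2) ≤ t (3 * m) 3 := by
    refine le_trans (mul_le_mul_of_nonneg_left ?_ (Nat.cast_nonneg _)) h3
    have : ((I (3 * m)).card : ℝ) * ((8 / 9) ^ m * X) = ((I (3 * m)).card : ℝ) * (8 / 9) ^ m * X := by
      ring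
    rw [this]
    nlinarith
  have h6 : (3 * m * ((3 * m - 1) * (3 * m)) : ℝ) * (X / 2) ≤ C * ((3 * m) ^ 2 * X) := by
    rw [← hI]
    refine h5.trans (h1.trans (le_of_eq ?_))
    push_cast; ring
  have h7 : ((3 * m - 1) / 2 - C : ℝ) * ((3 * m) ^ 2 * X) ≤ 0 := by nlinarith
  have h8 : 0 < ((3 * m) ^ 2 * X : ℝ) := by positivity
  have h9 : ((3 * m - 1) / 2 - C : ℝ) ≤ 0 := by
    by_contra h
    push Not at h
    have := mul_pos h h8
    linarith
  have h10 : (K : ℝ) + 1 ≤ m := by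
    have : K + 1 ≤ m := by simp only [m]; omega
    exact_mod_cast this
  linarith

end Q139.Cube
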