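import Pool.Agent.Q139.Cube.Defs

/-!
Many tiles of `ℤ^3` inside `[3m]^3`.
-/

namespace Q139.Cube

/-- the lattice generated by `(n,0,0)`, `(a,n,0)`, `(u1,u2,m)`; `p = (u1,u2,a)` -/
def lat (n m : ℤ) (p : ℤ × ℤ × ℤ) : Set (Fin 3 → ℤ) :=
  {x | ∃ k1 k2 k3 : ℤ, x 0 = k1 * n + k2 * p.2.2 + k3 * p.1 ∧ x 1 = k2 * n + k3 * p.2.1 ∧
    x 2 = k3 * m}

/-- the coset label -/
def lab (n m : ℤ) (p : ℤ × ℤ × ℤ) (x : Fin 3 → ℤ) : (ℤ × ℤ) × ℤ :=
  (((x 0 - 1 - (x 2 - 1) / m * p.1 - (x 1 - 1 - (x 2 - 1) / m * p.2.1) / n * p.2.2) % n,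
    (x 1 - 1 - (x 2 - 1) / m * p.2.1) % n), (x 2 - 1) % m)

theorem lab_eq_iff {n m : ℤ} (hn : 0 < n) (hm : 0 < m) (p : ℤ × ℤ × ℤ) (x y : Fin 3 → ℤ) :
    lab n m p x = lab n m p y ↔ x - y ∈ lat n m p := by
  obtain ⟨u1, u2, a⟩ := p
  constructor
  · intro h
    simp only [lab, Prod.mk.injEq] at h
    obtain ⟨⟨h1, h2⟩, h3⟩ := h
    have e1 := Int.emod_add_mul_ediv (x 2 - 1) m
    have e2 := Int.emod_add_mul_ediv (y 2 - 1) m
    set kx := (x 2 - 1) / m with hkx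
    set ky := (y 2 - 1) / m with hky
    have e3 := Int.emod_add_mul_ediv (x 1 - 1 - kx * u2) n
    have e4 := Int.emod_add_mul_ediv (y 1 - 1 - ky * u2) n
    set lx := (x 1 - 1 - kx * u2) / n with hlx
    set ly := (y 1 - 1 - ky * u2) / n with hly
    have e5 := Int.emod_add_mul_ediv (x 0 - 1 - kx * u1 - lx * a) n
    have e6 := Int.emod_add_mul_ediv (y 0 - 1 - ky * u1 - ly * a) n
    refine ⟨(x 0 - 1 - kx * u1 - lx * a) / n - (y 0 - 1 - ky * u1 - ly * a) / n, lx - ly, kx - ky,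
      ?_, ?_, ?_⟩
    · simp only [Pi.sub_apply]
      linear_combination e6 - e5 - h1.symm
    · simp only [Pi.sub_apply]
      linear_combination e4 - e3 - h2.symm
    · simp only [Pi.sub_apply]
      linear_combination e2 - e1 - h3.symm
  · rintro ⟨k1, k2, k3, h0, h1, h2⟩
    simp only [Pi.sub_apply] at h0 h1 h2
    have e2 : x 2 - 1 = (y 2 - 1) + k3 * m := by linarith
    have f2 : (x 2 - 1) / m = (y 2 - 1) / m + k3 := by
      rw [e2, Int.add_mul_ediv_right _ _ hm.ne']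
    have g2 : (x 2 - 1) % m = (y 2 - 1) % m := by
      rw [e2, Int.add_mul_emod_self_right]
    have e1 : x 1 - 1 - (x 2 - 1) / m * u2 = (y 1 - 1 - (y 2 - 1) / m * u2) + k2 * n := by
      rw [f2]; linear_combination h1
    have f1 : (x 1 - 1 - (x 2 - 1) / m * u2) / n = (y 1 - 1 - (y 2 - 1) / m * u2) / n + k2 := by
      rw [e1, Int.add_mul_ediv_right _ _ hn.ne']
    have g1 : (x 1 - 1 - (x 2 - 1) / m * u2) % n = (y 1 - 1 - (y 2 - 1) / m * u2) % n := by
      rw [e1, Int.add_mul_emod_self_right]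
    have e0 : x 0 - 1 - (x 2 - 1) / m * u1 - (x 1 - 1 - (x 2 - 1) / m * u2) / n * a =
        (y 0 - 1 - (y 2 - 1) / m * u1 - (y 1 - 1 - (y 2 - 1) / m * u2) / n * a) + k1 * n := by
      rw [f1, f2]; linear_combination h0
    have g0 : (x 0 - 1 - (x 2 - 1) / m * u1 - (x 1 - 1 - (x 2 - 1) / m * u2) / n * a) % n =
        (y 0 - 1 - (y 2 - 1) / m * u1 - (y 1 - 1 - (y 2 - 1) / m * u2) / n * a) % n := by
      rw [e0, Int.add_mul_emod_self_right]
    simp only [lab, g0, g1, g2]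

/-- representative of the coset with label `(b, h)` at level `c` -/
def rep (n m : ℤ) (p : ℤ × ℤ × ℤ) (b : ℤ × ℤ) (h c : ℤ) : Fin 3 → ℤ :=
  ![(b.1 + c * p.1 - (b.2 + c * p.2.1) / n * p.2.2) % n + 1, (b.2 + c * p.2.1) % n + 1,
    h + c * m + 1]

theorem lab_rep {n m : ℤ} (hn : 0 < n) (hm : 0 < m) (p : ℤ × ℤ × ℤ) (b : ℤ × ℤ) (h c : ℤ)
    (hb1 : 0 ≤ b.1) (hb1' : b.1 < n) (hb2 : 0 ≤ b.2) (hb2' : b.2 < n) (hh : 0 ≤ h)
    (hh' : h < m) : lab n m p (rep n m p b h c) = (b, h) := by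
  obtain ⟨u1, u2, a⟩ := p
  obtain ⟨b1, b2⟩ := b
  simp only at hb1 hb1' hb2 hb2'
  have e2 : (h + c * m + 1 - 1) / m = c := by
    rw [add_sub_cancel_right, Int.add_mul_ediv_right _ _ hm.ne', Int.ediv_eq_zero_of_lt hh hh',
      zero_add]
  have g2 : (h + c * m + 1 - 1) % m = h := by
    rw [add_sub_cancel_right, Int.add_mul_emod_self_right, Int.emod_eq_of_lt hh hh']
  have q1 : (b2 + c * u2) % n = b2 + c * u2 - (b2 + c * u2) / n * n := by
    rw [Int.emod_def]; ring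
  have e1 : (b2 + c * u2) % n + 1 - 1 - c * u2 = b2 + (-((b2 + c * u2) / n)) * n := by
    rw [q1]; ring
  have f1 : ((b2 + c * u2) % n + 1 - 1 - c * u2) / n = -((b2 + c * u2) / n) := by
    rw [e1, Int.add_mul_ediv_right _ _ hn.ne', Int.ediv_eq_zero_of_lt hb2 hb2', zero_add]
  have g1 : ((b2 + c * u2) % n + 1 - 1 - c * u2) % n = b2 := by
    rw [e1, Int.add_mul_emod_self_right, Int.emod_eq_of_lt hb2 hb2']
  set q := (b2 + c * u2) / n with hq
  have q0 : (b1 + c * u1 - q * a) % n = b1 + c * u1 - q * a - (b1 + c * u1 - q * a) / n * n := by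
    rw [Int.emod_def]; ring
  have g0 : ((b1 + c * u1 - q * a) % n + 1 - 1 - c * u1 - (-q) * a) % n = b1 := by
    rw [q0]
    have : b1 + c * u1 - q * a - (b1 + c * u1 - q * a) / n * n + 1 - 1 - c * u1 - -q * a =
        b1 + (-((b1 + c * u1 - q * a) / n)) * n := by ring
    rw [this, Int.add_mul_emod_self_right, Int.emod_eq_of_lt hb1 hb1']
  simp only [lab, rep, Matrix.cons_val_zero, Matrix.cons_val_one, Matrix.cons_val]
  rw [e2, f1, g0, g1, g2]

/-- fibre of the label in the cube -/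
noncomputable def A (n m : ℕ) (p : ℤ × ℤ × ℤ) (b : ℤ × ℤ) (h : ℤ) : Finset (Fin 3 → ℤ) :=
  (box n 3).filter fun x => lab n m p x = (b, h)

theorem rep_mem {m : ℕ} (hm : 0 < m) (p : ℤ × ℤ × ℤ) (b : ℤ × ℤ) (h c : ℤ)
    (hb1 : 0 ≤ b.1) (hb1' : b.1 < 3 * m) (hb2 : 0 ≤ b.2) (hb2' : b.2 < 3 * m) (hh : 0 ≤ h)
    (hh' : h < m) (hc : 0 ≤ c) (hc' : c < 3) :
    rep ((3 * m : ℕ) : ℤ) m p b h c ∈ A (3 * m) m p b h := by
  have hm' : (0 : ℤ) < m := by exact_mod_cast hm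
  have hn' : (0 : ℤ) < ((3 * m : ℕ) : ℤ) := by push_cast; linarith
  rw [A, Finset.mem_filter]
  refine ⟨?_, lab_rep hn' hm' p b h c hb1 (by push_cast; exact hb1') hb2
    (by push_cast; exact hb2') hh hh'⟩
  rw [mem_box]
  intro i
  fin_cases i
  · simp only [rep, Fin.zero_eta, Matrix.cons_val_zero]
    have h1 := Int.emod_nonneg (b.1 + c * p.1 - (b.2 + c * p.2.1) / ((3 * m : ℕ) : ℤ) * p.2.2)
      hn'.ne'
    have h2 := Int.emod_lt_of_pos (b.1 + c * p.1 - (b.2 + c * p.2.1) / ((3 * m : ℕ) : ℤ) * p.2.2)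
      hn'
    omega
  · simp only [rep, Fin.mk_one, Matrix.cons_val_one]
    have h1 := Int.emod_nonneg (b.2 + c * p.2.1) hn'.ne'
    have h2 := Int.emod_lt_of_pos (b.2 + c * p.2.1) hn'
    simp only [Matrix.cons_val_zero]
    omega
  · simp only [rep, Fin.reduceFinMk, Matrix.cons_val]
    have h1 : 0 ≤ c * m := by positivity
    have h2 : c * m ≤ 2 * m := by nlinarith
    push_cast
    omega

theorem card_A {m : ℕ} (hm : 0 < m) (p : ℤ × ℤ × ℤ) (b : ℤ × ℤ) (h : ℤ)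
    (hb1 : 0 ≤ b.1) (hb1' : b.1 < 3 * m) (hb2 : 0 ≤ b.2) (hb2' : b.2 < 3 * m) (hh : 0 ≤ h)
    (hh' : h < m) : (A (3 * m) m p b h).card = 3 := by
  have hm' : (0 : ℤ) < m := by exact_mod_cast hm
  have hn' : (0 : ℤ) < ((3 * m : ℕ) : ℤ) := by push_cast; linarith
  have key : A (3 * m) m p b h =
      (Finset.Ico (0 : ℤ) 3).image fun c => rep ((3 * m : ℕ) : ℤ) m p b h c := by
    ext x
    rw [Finset.mem_image]
    constructor
    · intro hx
      have hx1 := mem_box.1 (Finset.mem_filter.1 hx).1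
      have hx2 := (Finset.mem_filter.1 hx).2
      have hc : 0 ≤ (x 2 - 1) / m ∧ (x 2 - 1) / m < 3 := by
        have h1 := hx1 2
        push_cast at h1
        constructor
        · exact Int.ediv_nonneg (by omega) hm'.le
        · exact Int.ediv_lt_of_lt_mul hm' (by omega)
      refine ⟨(x 2 - 1) / m, Finset.mem_Ico.2 hc, ?_⟩
      have hr := rep_mem hm p b h ((x 2 - 1) / m) hb1 hb1' hb2 hb2' hh hh' hc.1 hc.2
      have hr1 := mem_box.1 (Finset.mem_filter.1 hr).1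
      have hr2 := (Finset.mem_filter.1 hr).2
      have hd := (lab_eq_iff hn' hm' p _ _).1 (hr2.trans hx2.symm)
      obtain ⟨k1, k2, k3, h0, h1, h2⟩ := hd
      simp only [Pi.sub_apply] at h0 h1 h2
      have h3 : h = (x 2 - 1) % m := by
        have := congrArg Prod.snd hx2
        exact this.symm
      have h4 : rep ((3 * m : ℕ) : ℤ) m p b h ((x 2 - 1) / m) 2 = x 2 := by
        simp only [rep, Matrix.cons_val]
        have := Int.emod_add_mul_ediv (x 2 - 1) m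
        rw [h3]; linarith
      have hk3 : k3 = 0 := by
        rw [h4, sub_self] at h2
        rcases mul_eq_zero.1 h2.symm with h | h
        · exact h
        · exact absurd h hm'.ne'
      subst hk3
      have hk2 : k2 = 0 := by
        have a1 := hr1 1
        have a2 := hx1 1
        rw [zero_mul, add_zero] at h1
        have a3 : |k2 * ((3 * m : ℕ) : ℤ)| < 1 * ((3 * m : ℕ) : ℤ) := by
          rw [← h1, abs_lt]; constructor <;> omega
        rw [abs_mul, abs_of_pos hn'] at a3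
        have a4 := lt_of_mul_lt_mul_right a3 hn'.le
        exact Int.abs_lt_one_iff.1 a4
      subst hk2
      have hk1 : k1 = 0 := by
        have a1 := hr1 0
        have a2 := hx1 0
        rw [zero_mul, add_zero, zero_mul, add_zero] at h0
        have a3 : |k1 * ((3 * m : ℕ) : ℤ)| < 1 * ((3 * m : ℕ) : ℤ) := by
          rw [← h0, abs_lt]; constructor <;> omega
        rw [abs_mul, abs_of_pos hn'] at a3
        have a4 := lt_of_mul_lt_mul_right a3 hn'.le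
        exact Int.abs_lt_one_iff.1 a4
      subst hk1
      ext i
      fin_cases i
      · simp only [Fin.zero_eta]; omega
      · simp only [Fin.mk_one]; omega
      · exact h4
    · rintro ⟨c, hc, rfl⟩
      rw [Finset.mem_Ico] at hc
      exact rep_mem hm p b h c hb1 hb1' hb2 hb2' hh hh' hc.1 hc.2
  rw [key, Finset.card_image_of_injective]
  · simp
  · intro c c' hcc
    have := congrFun hcc 2
    simp only [rep, Matrix.cons_val] at this
    have h1 : c * (m : ℤ) = c' * m := by linarith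
    exact mul_right_cancel₀ hm'.ne' h1

/-- the label with indices in `Fin` -/
def bb {n : ℕ} (b : Fin n × Fin n) : ℤ × ℤ := ((b.1 : ℕ), (b.2 : ℕ))

/-- transversals as functions -/
noncomputable def G (m : ℕ) (p : ℤ × ℤ × ℤ) :
    Finset (Fin m → Fin (3 * m) × Fin (3 * m) → Fin 3 → ℤ) :=
  Fintype.piFinset fun h => Fintype.piFinset fun b => A (3 * m) m p (bb b) ((h : ℕ) : ℤ)

theorem card_A' {m : ℕ} (p : ℤ × ℤ × ℤ) (b : Fin (3 * m) × Fin (3 * m)) (h : Fin m) :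
    (A (3 * m) m p (bb b) ((h : ℕ) : ℤ)).card = 3 := by
  have hm : 0 < m := h.pos
  apply card_A hm
  · simp [bb]
  · have := b.1.2; simp only [bb]; omega
  · simp [bb]
  · have := b.2.2; simp only [bb]; omega
  · simp
  · have := h.2; omega

theorem card_G (m : ℕ) (p : ℤ × ℤ × ℤ) : (G m p).card = (3 ^ (3 * m * (3 * m))) ^ m := by
  rw [G, Fintype.card_piFinset]
  simp only [Fintype.card_piFinset, card_A', Finset.prod_const, Finset.card_univ,
    Fintype.card_prod, Fintype.card_fin]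

/-- the set of values -/
def SS {m : ℕ} (g : Fin m → Fin (3 * m) × Fin (3 * m) → Fin 3 → ℤ) : Finset (Fin 3 → ℤ) :=
  (Finset.univ : Finset (Fin m × (Fin (3 * m) × Fin (3 * m)))).image fun q => g q.1 q.2

theorem mem_SS {m : ℕ} {g : Fin m → Fin (3 * m) × Fin (3 * m) → Fin 3 → ℤ} {x : Fin 3 → ℤ} :
    x ∈ SS g ↔ ∃ h b, g h b = x := by
  simp [SS]

theorem mem_G {m : ℕ} {p : ℤ × ℤ × ℤ} {g : Fin m → Fin (3 * m) × Fin (3 * m) → Fin 3 → ℤ} :
    g ∈ G m p ↔ ∀ h b, g h b ∈ box (3 * m) 3 ∧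
      lab ((3 * m : ℕ) : ℤ) m p (g h b) = (bb b, ((h : ℕ) : ℤ)) := by
  simp [G, A, Fintype.mem_piFinset]

theorem bb_inj {n : ℕ} {b b' : Fin n × Fin n} (h : bb b = bb b') : b = b' := by
  simp only [bb, Prod.mk.injEq, Nat.cast_inj] at h
  exact Prod.ext (Fin.ext h.1) (Fin.ext h.2)

/-- two values with the same label coincide -/
theorem eq_of_lab {m : ℕ} {p : ℤ × ℤ × ℤ} {g : Fin m → Fin (3 * m) × Fin (3 * m) → Fin 3 → ℤ}
    (hg : g ∈ G m p) {x y : Fin 3 → ℤ} (hx : x ∈ SS g) (hy : y ∈ SS g)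
    (hxy : lab ((3 * m : ℕ) : ℤ) m p x = lab ((3 * m : ℕ) : ℤ) m p y) : x = y := by
  rw [mem_SS] at hx hy
  obtain ⟨h, b, rfl⟩ := hx
  obtain ⟨h', b', rfl⟩ := hy
  rw [mem_G] at hg
  rw [(hg h b).2, (hg h' b').2, Prod.mk.injEq] at hxy
  have h1 : b = b' := bb_inj hxy.1
  have h2 : h = h' := Fin.ext (by exact_mod_cast hxy.2)
  rw [h1, h2]

/-- labels are in range -/
theorem exists_label {m : ℕ} (hm : 0 < m) (p : ℤ × ℤ × ℤ) (x : Fin 3 → ℤ) :
    ∃ (h : Fin m) (b : Fin (3 * m) × Fin (3 * m)),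
      lab ((3 * m : ℕ) : ℤ) m p x = (bb b, ((h : ℕ) : ℤ)) := by
  have hm' : (0 : ℤ) < m := by exact_mod_cast hm
  have hn' : (0 : ℤ) < ((3 * m : ℕ) : ℤ) := by push_cast; linarith
  have fin_of : ∀ (k : ℕ) (z : ℤ), 0 < (k : ℤ) → ∃ i : Fin k, ((i : ℕ) : ℤ) = z % k := by
    intro k z hk
    have h1 := Int.emod_nonneg z hk.ne'
    have h2 := Int.emod_lt_of_pos z hk
    refine ⟨⟨(z % k).toNat, by omega⟩, ?_⟩
    simp [h1]
  obtain ⟨h, hh⟩ := fin_of m (x 2 - 1) hm'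
  obtain ⟨b1, hb1⟩ := fin_of (3 * m) (x 0 - 1 - (x 2 - 1) / m * p.1 -
    (x 1 - 1 - (x 2 - 1) / m * p.2.1) / ((3 * m : ℕ) : ℤ) * p.2.2) hn'
  obtain ⟨b2, hb2⟩ := fin_of (3 * m) (x 1 - 1 - (x 2 - 1) / m * p.2.1) hn'
  exact ⟨h, (b1, b2), by simp only [lab, bb, hh, hb1, hb2]⟩

theorem SS_injOn (m : ℕ) (p : ℤ × ℤ × ℤ) : Set.InjOn (SS (m := m)) (G m p) := by
  intro g hg g' hg' h
  have h1 := mem_G.1 hg
  have h2 := mem_G.1 hg'
  ext h' b : 2
  apply eq_of_lab hg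
  · exact mem_SS.2 ⟨h', b, rfl⟩
  · rw [h]; exact mem_SS.2 ⟨h', b, rfl⟩
  · rw [(h1 h' b).2, (h2 h' b).2]

theorem tiles_SS {m : ℕ} (hm : 0 < m) {p : ℤ × ℤ × ℤ}
    {g : Fin m → Fin (3 * m) × Fin (3 * m) → Fin 3 → ℤ} (hg : g ∈ G m p) :
    SS g ⊆ box (3 * m) 3 ∧ Tiles (SS g) := by
  have hm' : (0 : ℤ) < m := by exact_mod_cast hm
  have hn' : (0 : ℤ) < ((3 * m : ℕ) : ℤ) := by push_cast; linarith
  have h1 := mem_G.1 hg
  refine ⟨fun x hx => ?_, lat ((3 * m : ℕ) : ℤ) m p, fun x => ?_⟩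
  · obtain ⟨h, b, rfl⟩ := mem_SS.1 hx
    exact (h1 h b).1
  · obtain ⟨h, b, hb⟩ := exists_label hm p x
    refine ⟨(g h b, x - g h b), ⟨mem_SS.2 ⟨h, b, rfl⟩, ?_, ?_⟩, ?_⟩
    · rw [← lab_eq_iff hn' hm', hb, (h1 h b).2]
    · simp only; abel
    · rintro ⟨y, z⟩ ⟨hy, hz, hyz⟩
      simp only at hy hz hyz
      have hz' : z = x - y := by rw [← hyz]; abel
      rw [hz', ← lab_eq_iff hn' hm'] at hz
      have : y = g h b := by
        apply eq_of_lab hg hy (mem_SS.2 ⟨h, b, rfl⟩)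
        rw [(h1 h b).2, ← hb, hz]
      rw [hz', this]

/-- index set of parameters -/
noncomputable def I (n : ℕ) : Finset (ℤ × ℤ × ℤ) :=
  Finset.Ico (0 : ℤ) n ×ˢ Finset.Ico (1 : ℤ) n ×ˢ Finset.Ico (0 : ℤ) n

theorem card_I (n : ℕ) : (I n).card = n * ((n - 1) * n) := by
  simp only [I, Finset.card_product, Int.card_Ico, sub_zero, Int.toNat_natCast]
  congr 2
  omega

/-- a vector of the second lattice outside the first one -/
theorem exists_vec {m : ℕ} (hm : 0 < m) {p q : ℤ × ℤ × ℤ} (hp : p ∈ I (3 * m))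
    (hq : q ∈ I (3 * m)) (hne : p ≠ q) :
    ∃ v ∈ lat ((3 * m : ℕ) : ℤ) m q, v ∉ lat ((3 * m : ℕ) : ℤ) m p ∧
      |v 0| < ((3 * m : ℕ) : ℤ) ∧ |v 1| < ((3 * m : ℕ) : ℤ) ∧ v 2 = m := by
  have hm' : (0 : ℤ) < m := by exact_mod_cast hm
  obtain ⟨u1, u2, a⟩ := p
  obtain ⟨u1', u2', a'⟩ := q
  simp only [I, Finset.mem_product, Finset.mem_Ico] at hp hq
  set n : ℤ := ((3 * m : ℕ) : ℤ) with hn
  have small : ∀ k : ℤ, |k * n| < n → k = 0 := by
    intro k hk
    have hn' : 0 < n := by rw [hn]; push_cast; linarith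
    rw [abs_mul, abs_of_pos hn'] at hk
    have h1 : |k| * n < 1 * n := by linarith
    exact Int.abs_lt_one_iff.1 (lt_of_mul_lt_mul_right h1 hn'.le)
  by_contra hcon
  push Not at hcon
  have c1 : (![u1', u2', (m : ℤ)] : Fin 3 → ℤ) ∈ lat n m (u1, u2, a) := by
    by_contra h
    have h1 : (![u1', u2', (m : ℤ)] : Fin 3 → ℤ) ∈ lat n m (u1', u2', a') :=
      ⟨0, 0, 1, by simp, by simp, by simp⟩
    have h2 := hcon _ h1 h
    simp only [Matrix.cons_val_zero, Matrix.cons_val_one, Matrix.cons_val, ne_eq,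
      not_true_eq_false, imp_false, not_lt] at h2
    have h3 := h2 (by rw [abs_lt]; constructor <;> omega)
    have h4 : |u2'| < n := by rw [abs_lt]; constructor <;> omega
    omega
  have c2 : (![u1' - a', u2' - n, (m : ℤ)] : Fin 3 → ℤ) ∈ lat n m (u1, u2, a) := by
    by_contra h
    have h1 : (![u1' - a', u2' - n, (m : ℤ)] : Fin 3 → ℤ) ∈ lat n m (u1', u2', a') :=
      ⟨0, -1, 1, by simp; ring, by simp; ring, by simp⟩
    have h2 := hcon _ h1 h
    simp only [Matrix.cons_val_zero, Matrix.cons_val_one, Matrix.cons_val, ne_eq,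
      not_true_eq_false, imp_false, not_lt] at h2
    have h3 := h2 (by rw [abs_lt]; constructor <;> omega)
    have h4 : |u2' - n| < n := by rw [abs_lt]; constructor <;> omega
    omega
  obtain ⟨k1, k2, k3, e0, e1, e2⟩ := c1
  obtain ⟨l1, l2, l3, f0, f1, f2⟩ := c2
  simp only [Matrix.cons_val_zero, Matrix.cons_val_one, Matrix.cons_val] at e0 e1 e2 f0 f1 f2
  have hk3 : k3 = 1 := by
    have : (k3 - 1) * (m : ℤ) = 0 := by linarith
    rcases mul_eq_zero.1 this with h | h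
    · linarith
    · exact absurd h hm'.ne'
  have hl3 : l3 = 1 := by
    have : (l3 - 1) * (m : ℤ) = 0 := by linarith
    rcases mul_eq_zero.1 this with h | h
    · linarith
    · exact absurd h hm'.ne'
  subst hk3; subst hl3
  have hk2 : k2 = 0 := small k2 (by
    have : k2 * n = u2' - u2 := by linarith
    rw [this, abs_lt]; constructor <;> omega)
  subst hk2
  have hk1 : k1 = 0 := small k1 (by
    have : k1 * n = u1' - u1 := by linarith
    rw [this, abs_lt]; constructor <;> omega)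
  subst hk1
  have hl2 : l2 = -1 := by
    have : l2 + 1 = 0 := small (l2 + 1) (by
      have : (l2 + 1) * n = u2' - u2 := by linarith
      rw [this, abs_lt]; constructor <;> omega)
    linarith
  subst hl2
  have hl1 : l1 = 0 := small l1 (by
    have : l1 * n = a - a' := by linarith
    rw [this, abs_lt]; constructor <;> omega)
  subst hl1
  apply hne
  simp only [Prod.mk.injEq]
  refine ⟨?_, ?_, ?_⟩ <;> linarith

end Q139.Cube
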